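import Pool.Agent.H13.HN.Disc

/-!
# Module RKJ of the theorem on hyperkaehler manifolds of dimension `2 n`: the rank

The span of the vector fields of the interpolated action and of the Hamiltonian fields at a point
is an isotropic subspace for the symplectic form, so its dimension is at most `n`.
-/

namespace Pool.Agent.H85.HN

open Pool.Agent.H13.HN

/-- An isotropic set spans a subspace of dimension at most half of the dimension of the space. -/
theorem isotropic_finrank {K V : Type*} [Field K] [AddCommGroup V] [Module K V]
    [FiniteDimensional K V] (B : LinearMap.BilinForm K V) (hn : B.Nondegenerate) {S : Set V}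
    (hS : ∀ u ∈ S, ∀ v ∈ S, B u v = 0) :
    2 * Module.finrank K (Submodule.span K S) ≤ Module.finrank K V := by
  have hW : Submodule.span K S ≤ B.orthogonal (Submodule.span K S) := by
    intro v hv
    rw [LinearMap.BilinForm.mem_orthogonal_iff]
    intro u hu
    induction hu using Submodule.span_induction with
    | mem u hu =>
      induction hv using Submodule.span_induction with
      | mem v hv => exact hS u hu v hv
      | zero => simp
      | add a b _ _ ha hb => rw [map_add, ha, hb, add_zero]
      | smul c a _ ha => rw [map_smul, ha, smul_zero]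
    | zero => simp
    | add a b _ _ ha hb => rw [map_add, LinearMap.add_apply, ha, hb, add_zero]
    | smul c a _ ha => rw [map_smul, LinearMap.smul_apply, ha, smul_zero]
  have h1 := Submodule.finrank_mono hW
  have h2 := LinearMap.BilinForm.finrank_orthogonal hn (Submodule.span K S)
  have h3 := Submodule.finrank_le (Submodule.span K S)
  omega

variable {Lam : Type} [AddCommGroup Lam] {q : Lam → Lam → ℤ} {NS Ample : Set Lam}
  {P : Type} {SecA : Submodule ℂ (P → ℂ)} {n r kap : ℕ} {act : (Fin r → ℤ) → P → P}
  {pull : (Fin r → ℤ) → Lam → Lam} {A : Lam} {Good : Set P}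
  {JA : P → (P → ℂ) → MvPowerSeries (Fin kap) ℂ} {p : ℕ} [Fact p.Prime]

/-- **The rank is at most `n`.** -/
theorem dl_le (E : Disc q NS Ample SecA n act pull A Good JA p) (x : E.D) : E.dl x ≤ n := by
  have hS : ∀ u ∈ Set.range (E.vec x) ∪ Set.range (E.ham x),
      ∀ v ∈ Set.range (E.vec x) ∪ Set.range (E.ham x), E.form x u v = 0 := by
    rintro u (⟨i, rfl⟩ | ⟨i, rfl⟩) v (⟨j, rfl⟩ | ⟨j, rfl⟩)
    · exact E.form_vec x i j
    · rw [← (E.form_alt x).neg_eq, E.form_ham, E.dphi_vec, neg_zero]
    · rw [E.form_ham, E.dphi_vec]
    · rw [E.form_ham, E.dphi_ham]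
  have h1 := isotropic_finrank (E.form x) (E.form_nondeg x) hS
  rw [← E.dl_eq x, Module.finrank_fin_fun] at h1
  omega

end Pool.Agent.H85.HN
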