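import Pool.Agent.H74.HN.GENA

/-!
# The number of different translates in the list of the generation theorem
-/

namespace Pool.Agent.H74.HN.Jet

/-- the elements of the list are `0` and `±2^j e`, `j < K`. -/
theorem shape_lst {r : ℕ} (w : ℕ) (e : Fin r → ℤ) (C K : ℕ) (x : Fin r → ℤ)
    (hx : x ∈ lst w e C K) : x = 0 ∨ ∃ j < K, x = (2 ^ j : ℤ) • e ∨ x = -((2 ^ j : ℤ) • e) := by
  induction K with
  | zero =>
    rw [lst] at hx
    exact Or.inl (List.eq_of_mem_replicate hx)
  | succ K ih =>
    rw [lst, List.mem_append, List.mem_append] at hx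
    rcases hx with hx | hx | hx
    · exact Or.inr ⟨K, Nat.lt_succ_self K, Or.inl (List.eq_of_mem_replicate hx)⟩
    · exact Or.inr ⟨K, Nat.lt_succ_self K, Or.inr (List.eq_of_mem_replicate hx)⟩
    · rcases ih hx with h | ⟨j, hj, h⟩
      · exact Or.inl h
      · exact Or.inr ⟨j, hj.trans (Nat.lt_succ_self K), h⟩

theorem shape_lstAll {r : ℕ} (w : ℕ) (e : Fin r → ℤ) (C K m : ℕ) (x : Fin r → ℤ)
    (hx : x ∈ lstAll w e C K m) :
    x = 0 ∨ ∃ j < K + 1, x = (2 ^ j : ℤ) • e ∨ x = -((2 ^ j : ℤ) • e) := by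
  rw [lstAll, List.mem_append, List.mem_append] at hx
  rcases hx with hx | hx | hx
  · exact Or.inr ⟨K, Nat.lt_succ_self K, Or.inl (List.eq_of_mem_replicate hx)⟩
  · exact Or.inr ⟨K, Nat.lt_succ_self K, Or.inr (List.eq_of_mem_replicate hx)⟩
  · exact shape_lst w e C (K + 1) x hx

/-- there are at most `2 K + 3` different translates. -/
theorem card_translates' {r : ℕ} (w : ℕ) (e : Fin r → ℤ) (C K m : ℕ) :
    (Finset.univ.image fun s : Fin (lstAll w e C K m).length =>
      (lstAll w e C K m).get s).card ≤ 2 * K + 3 := by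
  classical
  have hsub : (Finset.univ.image fun s : Fin (lstAll w e C K m).length =>
      (lstAll w e C K m).get s) ⊆
      insert 0 ((Finset.range (K + 1)).image (fun j : ℕ => (2 ^ j : ℤ) • e) ∪
        (Finset.range (K + 1)).image (fun j : ℕ => -((2 ^ j : ℤ) • e))) := by
    intro x hx
    obtain ⟨s, -, rfl⟩ := Finset.mem_image.1 hx
    rcases shape_lstAll w e C K m _ (List.get_mem _ s) with h | ⟨j, hj, h | h⟩
    · rw [h]; exact Finset.mem_insert_self _ _
    · exact Finset.mem_insert_of_mem (Finset.mem_union_left _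
        (Finset.mem_image.2 ⟨j, Finset.mem_range.2 hj, h.symm⟩))
    · exact Finset.mem_insert_of_mem (Finset.mem_union_right _
        (Finset.mem_image.2 ⟨j, Finset.mem_range.2 hj, h.symm⟩))
  refine (Finset.card_le_card hsub).trans ?_
  refine (Finset.card_insert_le _ _).trans ?_
  have h1 := Finset.card_union_le ((Finset.range (K + 1)).image (fun j : ℕ => (2 ^ j : ℤ) • e))
    ((Finset.range (K + 1)).image (fun j : ℕ => -((2 ^ j : ℤ) • e)))
  have h2 : ((Finset.range (K + 1)).image (fun j : ℕ => (2 ^ j : ℤ) • e)).card ≤ K + 1 :=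
    Finset.card_image_le.trans (Finset.card_range _).le
  have h3 : ((Finset.range (K + 1)).image (fun j : ℕ => -((2 ^ j : ℤ) • e))).card ≤ K + 1 :=
    Finset.card_image_le.trans (Finset.card_range _).le
  omega

/-- **The number of different translates.** -/
theorem card_translates {r : ℕ} (w : ℕ) (e : Fin r → ℤ) (C K m : ℕ) :
    (Finset.univ.image fun s : Fin (lstAll w e C K m).length =>
      (lstAll w e C K m).get s).card ≤ 2 * K + 5 :=
  (card_translates' w e C K m).trans (by omega)

end Pool.Agent.H74.HN.Jet
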